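import Mathlib
import Pool.Agent.W269.RR.Cnt
import Pool.Agent.W269.RR.Op

/-!
# The noncommutative AM-GM inequality for norms of matrix products is false

For positive semidefinite complex `d × d` matrices `A_1, …, A_n` let `W_m` be the average of the
spectral norms `‖A_{j_1} ⋯ A_{j_m}‖` over all `m`-tuples of indices and `D_m` the average over the
`m`-tuples of pairwise distinct indices. Recht and Ré (2012), in the form with the norm inside the
averages, asked whether `W_m ≥ D_m` always. We show that this is false: it fails for `m = n = 40`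
(and suitable `d`).

The matrix `A_j` is a direct sum over all permutations `π` of the rank one matrices
`v_{π(j)} v_{π(j)}ᵀ`, where `v_x = e_x + e_{x+1}`. For distinct indices `j_1, …, j_n` the block in
which the indices are in this order shows that the norm is at least `2`. The norm for an arbitrary
tuple is `0` unless the tuple is a walk on a path whose vertices are labelled by the indices, and it
is then `2 ^ (1 + number of rests)`; there are few such tuples.
-/

set_option autoImplicit false

namespace Pool.Agent.Results.MP_6169a9_an.NormsInsideFalse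

open Finset InnerProductSpace Pool.Agent.W269.RR
open scoped ComplexOrder

/-- the spectral norm of a complex matrix: its operator norm for the Euclidean norm of `ℂ^d` -/
noncomputable def specNorm {d : ℕ} (M : Matrix (Fin d) (Fin d) ℂ) : ℝ :=
  ‖Matrix.toEuclideanCLM (n := Fin d) (𝕜 := ℂ) M‖

/-- the average of `‖A_{j_1} ⋯ A_{j_m}‖` over all `m`-tuples of indices -/
noncomputable def withReplacement {d n : ℕ} (m : ℕ) (A : Fin n → Matrix (Fin d) (Fin d) ℂ) : ℝ :=
  (1 / (n : ℝ) ^ m) * ∑ j : Fin m → Fin n, specNorm (List.ofFn fun t => A (j t)).prod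

/-- the average of `‖A_{j_1} ⋯ A_{j_m}‖` over all `m`-tuples of pairwise distinct indices -/
noncomputable def withoutReplacement {d n : ℕ} (m : ℕ) (A : Fin n → Matrix (Fin d) (Fin d) ℂ) : ℝ :=
  (((n - m).factorial : ℝ) / (n.factorial : ℝ)) *
    ∑ j : Fin m ↪ Fin n, specNorm (List.ofFn fun t => A (j t)).prod

section vectors

variable (n : ℕ)

/-- the index set of the direct sum -/
abbrev Idx : Type := Fin (n + 1) × Equiv.Perm (Fin n)

/-- the dimension -/
abbrev dd : ℕ := Fintype.card (Idx n)

/-- numbering of the index set -/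
noncomputable def ee : Idx n ≃ Fin (dd n) := Fintype.equivFin _

/-- the vectors -/
noncomputable def ww (π : Equiv.Perm (Fin n)) (a : Fin n) : EuclideanSpace ℂ (Fin (dd n)) :=
  EuclideanSpace.single (ee n ((π a).castSucc, π)) 1 + EuclideanSpace.single (ee n ((π a).succ, π)) 1

theorem inner_single {d : ℕ} (i k : Fin d) :
    inner ℂ (EuclideanSpace.single i (1 : ℂ)) (EuclideanSpace.single k (1 : ℂ)) =
      if i = k then (1 : ℂ) else 0 := by
  rw [EuclideanSpace.inner_single_left, EuclideanSpace.single_apply]
  simp

theorem blk : Blk (ww n) (fun (π : Equiv.Perm (Fin n)) a b => gg (π a) (π b)) where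
  orth := fun π π' hne a b => by
    unfold ww
    simp only [inner_add_left, inner_add_right, inner_single, EmbeddingLike.apply_eq_iff_eq,
      Prod.mk.injEq, hne, and_false, if_false, add_zero]
  gram := fun π a b => by
    unfold ww
    simp only [inner_add_left, inner_add_right, inner_single, EmbeddingLike.apply_eq_iff_eq,
      Prod.mk.injEq, and_true]
    unfold gg
    generalize π a = x
    generalize π b = y
    have h1 : (x.castSucc = y.castSucc) ↔ x = y := Fin.castSucc_inj
    have h2 : (x.succ = y.succ) ↔ x = y := Fin.succ_inj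
    have h3 : (x.castSucc = y.succ) ↔ (y : ℕ) + 1 = x := by
      rw [Fin.ext_iff]; simp; omega
    have h4 : (x.succ = y.castSucc) ↔ (x : ℕ) + 1 = y := by
      rw [Fin.ext_iff]; simp
    simp only [h1, h2, h3, h4]
    by_cases e : x = y
    · subst e
      simp
      norm_num
    · by_cases e1 : (x : ℕ) + 1 = y
      · have e2 : ¬ (y : ℕ) + 1 = x := by omega
        simp [e, e1, e2]
      · by_cases e2 : (y : ℕ) + 1 = x
        · simp [e, e1, e2]
        · simp [e, e1, e2]
  diag := fun π a => by
    unfold gg
    rw [if_pos rfl]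

/-- the matrices -/
noncomputable def AA (a : Fin n) : Matrix (Fin (dd n)) (Fin (dd n)) ℂ :=
  (Matrix.toEuclideanCLM (n := Fin (dd n)) (𝕜 := ℂ)).symm (TT (ww n) a)

theorem AA_pos (a : Fin n) : (AA n a).PosSemidef := by
  rw [← Matrix.isPositive_toEuclideanLin_iff]
  have h1 : (Matrix.toEuclideanLin (AA n a)) = (TT (ww n) a).toLinearMap := by
    rw [← Matrix.coe_toEuclideanCLM_eq_toEuclideanLin]
    unfold AA
    rw [StarAlgEquiv.apply_symm_apply]
  rw [h1, ContinuousLinearMap.isPositive_toLinearMap_iff]
  unfold TT
  exact ContinuousLinearMap.isPositive_sum _ fun π _ => isPositive_rankOne_self _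

theorem norm_AA {m : ℕ} (j : Fin m → Fin n) :
    specNorm (List.ofFn fun t => AA n (j t)).prod = ‖((List.ofFn j).map (TT (ww n))).prod‖ := by
  unfold specNorm
  rw [map_list_prod, List.map_ofFn, List.map_ofFn]
  congr 3
  funext t
  simp [AA, Function.comp]

theorem cl_eq (k : ℕ) : ∀ (j : Fin (k + 1) → Fin n) (π : Equiv.Perm (Fin n)),
    cl (fun (π : Equiv.Perm (Fin n)) a b => gg (π a) (π b)) π (j 0)
      (List.ofFn fun t : Fin k => j t.succ) = cw π j := by
  induction k with
  | zero => intro j π; simp [cl, cw]
  | succ k ih =>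
    intro j π
    rw [List.ofFn_succ, cl]
    have h1 := ih (fun t => j t.succ) π
    rw [show (j (Fin.succ 0)) = (fun t : Fin (k + 1) => j t.succ) 0 from rfl, h1]
    unfold cw
    rw [Fin.prod_univ_succ (n := k)]
    rfl

theorem specNorm_le {k : ℕ} (j : Fin (k + 1) → Fin n) :
    specNorm (List.ofFn fun t => AA n (j t)).prod ≤ 2 * (wt j : ℝ) := by
  rw [norm_AA, List.ofFn_succ]
  refine norm_le (blk n) _ _ _ fun π => ?_
  rw [cl_eq]
  exact le_sup (f := fun π : Equiv.Perm (Fin n) => cw π j) (mem_univ π)

theorem two_le_specNorm {k : ℕ} (j : Fin (k + 1) ↪ Fin (k + 1)) :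
    2 ≤ specNorm (List.ofFn fun t => AA (k + 1) (j t)).prod := by
  rw [norm_AA, List.ofFn_succ]
  set π : Equiv.Perm (Fin (k + 1)) :=
    (Equiv.ofBijective j (Finite.injective_iff_bijective.1 j.injective)).symm with hπ
  refine le_trans ?_ (le_norm (blk (k + 1)) _ _ π)
  rw [cl_eq]
  have h1 : ∀ t, π (j t) = t := fun t => by
    rw [hπ]
    exact Equiv.ofBijective_symm_apply_apply _ _ t
  have h2 : cw π j = 1 := by
    unfold cw
    refine prod_eq_one fun t _ => ?_
    rw [h1, h1]
    unfold gg
    have h3 : t.castSucc ≠ t.succ := by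
      intro h
      have := congrArg Fin.val h
      simp at this
    rw [if_neg h3, if_pos (Or.inl (by simp))]
  rw [h2]
  norm_num

end vectors

theorem numeric : 2 ^ 39 * ∑ i ∈ range 40, (39).choose i * (40).descFactorial (i + 1) < 40 ^ 40 := by
  norm_num [Finset.sum_range_succ, Nat.choose_eq_descFactorial_div_factorial, Nat.descFactorial,
    Nat.factorial]

/-- **The noncommutative AM-GM inequality with the norms inside the averages is false.** There are
positive semidefinite complex matrices `A_1, …, A_n` and `m ≤ n` (in the proof `m = n = 40`) such that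
the average of `‖A_{j_1} ⋯ A_{j_m}‖` over all `m`-tuples of indices is smaller than the average over
the `m`-tuples of pairwise distinct indices. -/
theorem result : ∃ (d n m : ℕ) (A : Fin n → Matrix (Fin d) (Fin d) ℂ),
    1 ≤ d ∧ 1 ≤ m ∧ m ≤ n ∧ (∀ i, (A i).PosSemidef) ∧
      withReplacement m A < withoutReplacement m A := by
  refine ⟨dd 40, 40, 40, AA 40, Fintype.card_pos, by norm_num, le_rfl, AA_pos 40, ?_⟩
  have hW : withReplacement 40 (AA 40) < 2 := by
    unfold withReplacement
    have h1 : ∑ j : Fin 40 → Fin 40, specNorm (List.ofFn fun t => AA 40 (j t)).prod ≤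
        2 * (((2 ^ 39 * ∑ i ∈ range 40, (39).choose i * (40).descFactorial (i + 1) : ℕ)) : ℝ) := by
      calc _ ≤ ∑ j : Fin 40 → Fin 40, 2 * (wt (k := 39) j : ℝ) :=
            sum_le_sum fun j _ => specNorm_le 40 (k := 39) j
        _ = 2 * ((∑ j : Fin (39 + 1) → Fin 40, wt (k := 39) j : ℕ) : ℝ) := by
            rw [← mul_sum]
            push_cast
            rfl
        _ ≤ _ := by
            refine mul_le_mul_of_nonneg_left ?_ two_pos.le
            exact_mod_cast sum_wt_le 40 39 le_rfl
    have h2 : (((2 ^ 39 * ∑ i ∈ range 40, (39).choose i * (40).descFactorial (i + 1) : ℕ)) : ℝ) <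
        (40 : ℝ) ^ 40 := by
      exact_mod_cast numeric
    have h3 : (0 : ℝ) < (40 : ℝ) ^ 40 := by positivity
    rw [one_div, inv_mul_eq_div, div_lt_iff₀ (by exact_mod_cast h3)]
    push_cast at h1 h2 ⊢
    linarith
  have hD : 2 ≤ withoutReplacement 40 (AA 40) := by
    unfold withoutReplacement
    have h1 : (Nat.factorial 40 : ℝ) * 2 ≤
        ∑ j : Fin 40 ↪ Fin 40, specNorm (List.ofFn fun t => AA 40 (j t)).prod := by
      calc (Nat.factorial 40 : ℝ) * 2 = ∑ _j : Fin 40 ↪ Fin 40, (2 : ℝ) := by
            rw [sum_const, card_univ, Fintype.card_embedding_eq, Fintype.card_fin,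
              Nat.descFactorial_self, nsmul_eq_mul]
        _ ≤ _ := sum_le_sum fun j _ => two_le_specNorm (k := 39) j
    have h2 : (0 : ℝ) < (Nat.factorial 40 : ℝ) := by exact_mod_cast Nat.factorial_pos 40
    rw [Nat.sub_self, Nat.factorial_zero, Nat.cast_one, div_mul_eq_mul_div, one_mul,
      le_div_iff₀ h2]
    linarith
  linarith

end Pool.Agent.Results.MP_6169a9_an.NormsInsideFalse
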